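import Pool.Agent.MP_5d0005_an.Defs

set_option autoImplicit false

open Set Real

namespace Pool.Agent.MP_5d0005_an

/-- height function of the table over a line of direction with double angle `(c, s)` -/
noncomputable def hgt (c s a : ℝ) : ℝ :=
  1 - cos a + 1 / 4 * c * (cos a - 2 / 3 * cos a ^ 3 - 1 / 3) - 1 / 6 * s * sin a ^ 3

lemma hasDerivAt_hgt (c s a : ℝ) : HasDerivAt (hgt c s)
    (sin a * (1 + 1 / 4 * c * (2 * cos a ^ 2 - 1) - 1 / 2 * s * (sin a * cos a))) a := by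
  have h1 := hasDerivAt_cos a
  have h2 := hasDerivAt_sin a
  have h := (((h1.const_sub 1).add
    ((((h1.sub ((h1.pow 3).const_mul (2 / 3))).sub_const (1 / 3))).const_mul (1 / 4 * c))).sub
    ((h2.pow 3).const_mul (1 / 6 * s)))
  refine HasDerivAt.congr_deriv (f := hgt c s) h ?_
  simp only [Nat.add_one_sub_one, Nat.cast_ofNat]
  ring

lemma continuous_hgt : Continuous (fun x : ℝ × ℝ × ℝ => hgt x.1 x.2.1 x.2.2) := by
  unfold hgt; fun_prop

lemma hgt_strictMonoOn {c s : ℝ} (hc : |c| ≤ 1) (hs : |s| ≤ 1) :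
    StrictMonoOn (hgt c s) (Icc 0 π) := by
  refine strictMonoOn_of_deriv_pos (convex_Icc _ _)
    (fun a _ => (hasDerivAt_hgt c s a).continuousAt.continuousWithinAt) ?_
  intro a ha
  rw [interior_Icc] at ha
  rw [(hasDerivAt_hgt c s a).deriv]
  refine mul_pos (sin_pos_of_mem_Ioo ha) ?_
  have e := sin_sq_add_cos_sq a
  have b1 : |2 * cos a ^ 2 - 1| ≤ 1 := by
    rw [abs_le]; constructor <;> nlinarith [sq_nonneg (cos a), sq_nonneg (sin a)]
  have b2 : |sin a * cos a| ≤ 1 / 2 := by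
    rw [abs_le]; constructor <;> nlinarith [sq_nonneg (cos a + sin a), sq_nonneg (sin a - cos a)]
  have b3 : |c * (2 * cos a ^ 2 - 1)| ≤ 1 := by
    rw [abs_mul]; exact mul_le_one₀ hc (abs_nonneg _) b1
  have b4 : |s * (sin a * cos a)| ≤ 1 / 2 := by
    rw [abs_mul]; nlinarith [abs_nonneg s, abs_nonneg (sin a * cos a)]
  have := (abs_le.mp b3).1
  have := (abs_le.mp b4).2
  nlinarith

lemma hgt_zero (c s : ℝ) : hgt c s 0 = 0 := by simp [hgt]; right; norm_num

lemma hgt_pi (c s : ℝ) : hgt c s π = 2 - c / 6 := by simp [hgt]; ring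

lemma hgt_neg (c s a : ℝ) : hgt c s (-a) = hgt c (-s) a := by simp [hgt]; ring

lemma hgt_pos {c s a : ℝ} (hc : |c| ≤ 1) (hs : |s| ≤ 1) (ha : cos a ≠ 1) : 0 < hgt c s a := by
  have e := sin_sq_add_cos_sq a
  have h1 : 0 < 1 - cos a := sub_pos.mpr (lt_of_le_of_ne (cos_le_one a) ha)
  have e2 : hgt c s a = (1 - cos a) * (1 + 1 / 4 * (c * (2 / 3 * cos a ^ 2 + 2 / 3 * cos a - 1 / 3))
      - 1 / 6 * (s * (sin a * (1 + cos a)))) := by
    unfold hgt
    linear_combination (-1 / 6 * s * sin a) * e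
  rw [e2]
  refine mul_pos h1 ?_
  have c1 := cos_le_one a
  have c2 := neg_one_le_cos a
  have b1 : |2 / 3 * cos a ^ 2 + 2 / 3 * cos a - 1 / 3| ≤ 1 := by
    rw [abs_le]; constructor <;> nlinarith [sq_nonneg (cos a + 1 / 2)]
  have b2 : |sin a * (1 + cos a)| ≤ 2 := by
    rw [abs_mul, abs_of_nonneg (by linarith : 0 ≤ 1 + cos a)]
    nlinarith [abs_sin_le_one a, abs_nonneg (sin a)]
  have b3 : |c * (2 / 3 * cos a ^ 2 + 2 / 3 * cos a - 1 / 3)| ≤ 1 := by
    rw [abs_mul]; exact mul_le_one₀ hc (abs_nonneg _) b1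
  have b4 : |s * (sin a * (1 + cos a))| ≤ 2 := by
    rw [abs_mul]; nlinarith [abs_nonneg s, abs_nonneg (sin a * (1 + cos a))]
  have := (abs_le.mp b3).1
  have := (abs_le.mp b4).2
  linarith

lemma exists_out (φ : ℝ) (α : Ioo (0 : ℝ) π) : ∃ β : Ioo (0 : ℝ) π,
    hgt (cos (2 * φ)) (sin (2 * φ)) β = hgt (cos (2 * φ)) (-sin (2 * φ)) α := by
  have hc := abs_cos_le_one (2 * φ)
  have hs : |(-sin (2 * φ))| ≤ 1 := by rw [abs_neg]; exact abs_sin_le_one _
  have hm := hgt_strictMonoOn hc hs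
  have l1 := hm (left_mem_Icc.mpr pi_pos.le) (Ioo_subset_Icc_self α.2) α.2.1
  have l2 := hm (Ioo_subset_Icc_self α.2) (right_mem_Icc.mpr pi_pos.le) α.2.2
  have hcont : ContinuousOn (hgt (cos (2 * φ)) (sin (2 * φ))) (Icc 0 π) :=
    fun a _ => (hasDerivAt_hgt _ _ a).continuousAt.continuousWithinAt
  obtain ⟨β, hβ, e⟩ := intermediate_value_Ioo pi_pos.le hcont
    (show hgt (cos (2 * φ)) (-sin (2 * φ)) α ∈ Ioo _ _ from
      ⟨by rw [hgt_zero] at l1 ⊢; exact l1, by rw [hgt_pi] at l2 ⊢; exact l2⟩)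
  exact ⟨⟨β, hβ⟩, e⟩

/-- the arrival angle of the chord with direction `φ` and departure angle `α` -/
noncomputable def outAngle (φ : ℝ) (α : Ioo (0 : ℝ) π) : Ioo (0 : ℝ) π :=
  Classical.choose (exists_out φ α)

lemma out_spec (φ : ℝ) (α : Ioo (0 : ℝ) π) :
    hgt (cos (2 * φ)) (sin (2 * φ)) (outAngle φ α) = hgt (cos (2 * φ)) (-sin (2 * φ)) α :=
  Classical.choose_spec (exists_out φ α)

lemma hgt_lt_iff (φ : ℝ) (a b : Ioo (0 : ℝ) π) :
    hgt (cos (2 * φ)) (sin (2 * φ)) a < hgt (cos (2 * φ)) (sin (2 * φ)) b ↔ a < b :=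
  (hgt_strictMonoOn (abs_cos_le_one _) (abs_sin_le_one _)).lt_iff_lt
    (Ioo_subset_Icc_self a.2) (Ioo_subset_Icc_self b.2)

lemma out_unique {φ : ℝ} {α β : Ioo (0 : ℝ) π}
    (h : hgt (cos (2 * φ)) (sin (2 * φ)) β = hgt (cos (2 * φ)) (-sin (2 * φ)) α) :
    β = outAngle φ α := by
  rw [← out_spec] at h
  rcases lt_trichotomy β (outAngle φ α) with l | l | l
  · exact absurd h ((hgt_lt_iff φ _ _).mpr l).ne
  · exact l
  · exact absurd h ((hgt_lt_iff φ _ _).mpr l).ne'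

lemma out_out (φ : ℝ) (α : Ioo (0 : ℝ) π) : outAngle (-φ) (outAngle φ α) = α := by
  symm
  apply out_unique
  rw [mul_neg, cos_neg, sin_neg, neg_neg, out_spec]

lemma out_zero (α : Ioo (0 : ℝ) π) : outAngle 0 α = α := by
  symm
  apply out_unique
  simp

lemma out_add (φ : ℝ) (k : ℤ) (α : Ioo (0 : ℝ) π) :
    outAngle (φ + k * (2 * π)) α = outAngle φ α := by
  symm
  apply out_unique
  have e : 2 * (φ + k * (2 * π)) = 2 * φ + ((2 * k : ℤ) : ℝ) * (2 * π) := by push_cast; ring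
  rw [e, cos_add_int_mul_two_pi, sin_add_int_mul_two_pi, out_spec]

lemma continuous_out : Continuous (fun x : ℝ × Ioo (0 : ℝ) π => outAngle x.1 x.2) := by
  rw [OrderTopology.continuous_iff]
  intro b
  have c1 : Continuous (fun x : ℝ × Ioo (0 : ℝ) π =>
      hgt (cos (2 * x.1)) (sin (2 * x.1)) b) :=
    continuous_hgt.comp (f := fun x : ℝ × Ioo (0 : ℝ) π =>
      (cos (2 * x.1), sin (2 * x.1), (b : ℝ))) (by fun_prop)
  have c2 : Continuous (fun x : ℝ × Ioo (0 : ℝ) π =>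
      hgt (cos (2 * x.1)) (-sin (2 * x.1)) x.2) :=
    continuous_hgt.comp (f := fun x : ℝ × Ioo (0 : ℝ) π =>
      (cos (2 * x.1), -sin (2 * x.1), (x.2 : ℝ))) (by fun_prop)
  constructor
  · convert isOpen_lt c1 c2 using 1
    ext x
    simp only [mem_preimage, mem_Ioi, mem_ofPred_eq]
    rw [← out_spec, hgt_lt_iff]
  · convert isOpen_lt c2 c1 using 1
    ext x
    simp only [mem_preimage, mem_Iio, mem_ofPred_eq]
    rw [← out_spec, hgt_lt_iff]

lemma cot_gain_aux {a b : ℝ} (ha : a ∈ Ioo 0 π) (hb : b ∈ Ioo 0 π)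
    (h : cos b - cos a = 1 / 6 * (sin a ^ 3 + sin b ^ 3)) : cot a + 1 / 8 < cot b := by
  have sa := sin_pos_of_mem_Ioo ha
  have sb := sin_pos_of_mem_Ioo hb
  have sa1 := sin_le_one a
  have sb1 := sin_le_one b
  have hlt : b < a := by
    by_contra hcon
    have := cos_le_cos_of_nonneg_of_le_pi ha.1.le hb.2.le (not_lt.mp hcon)
    have : 0 < sin a ^ 3 + sin b ^ 3 := by positivity
    linarith
  by_contra hcon
  rw [not_lt, cot_eq_cos_div_sin, cot_eq_cos_div_sin, div_add' _ _ _ sa.ne',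
    div_le_div_iff₀ sb sa] at hcon
  obtain ⟨D, hD⟩ : ∃ D, a = b + D := ⟨a - b, by ring⟩
  have sD : 0 < sin D := sin_pos_of_pos_of_lt_pi (by linarith) (by linarith [ha.2, hb.1])
  have e1 : sin D = sin a * cos b - cos a * sin b := by
    rw [← sin_sub, hD]; congr 1; ring
  have e2 : sin a = sin b * cos D + cos b * sin D := by rw [hD, sin_add]
  have e3 : cos a = cos b * cos D - sin b * sin D := by rw [hD, cos_add]
  have k1 : sin D ≤ 1 / 8 * (sin a * sin b) := by rw [e1]; linarith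
  have cb := cos_le_one b
  have cD1 := cos_le_one D
  have pab : 0 < sin a * sin b := mul_pos sa sb
  have cD : 0 < cos D := by
    by_contra hc
    have hc' : cos D ≤ 0 := not_lt.mp hc
    have t1 : sin b * cos D ≤ 0 := mul_nonpos_of_nonneg_of_nonpos sb.le hc'
    have t2 : cos b * sin D ≤ sin D := by nlinarith
    have t3 : sin a * sin b ≤ sin a := by nlinarith
    linarith
  have eD := sin_sq_add_cos_sq D
  have k2 : 1 - cos D ≤ sin D ^ 2 := by nlinarith
  have k3 : cos b * (1 - cos D) ≤ sin D ^ 2 := by nlinarith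
  have k4 : sin D ^ 2 ≤ 1 / 64 * (sin a * sin b) ^ 2 := by nlinarith
  have k5 : sin b * sin D ≤ 1 / 8 * (sin a * sin b ^ 2) := by nlinarith
  have k6 : (sin a * sin b) ^ 2 ≤ sin a * sin b ^ 2 := by
    have : 0 < sin a * sin b ^ 2 := by positivity
    nlinarith
  have k7 : sin a * sin b ^ 2 ≤ sin a ^ 3 + sin b ^ 3 := by
    rcases le_total (sin a) (sin b) with l | l
    · have : sin a * sin b ^ 2 ≤ sin b ^ 3 := by nlinarith [sq_nonneg (sin b)]
      have : 0 < sin a ^ 3 := by positivity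
      linarith
    · have : sin b ^ 2 ≤ sin a ^ 2 := by nlinarith
      have : sin a * sin b ^ 2 ≤ sin a ^ 3 := by nlinarith
      have : 0 < sin b ^ 3 := by positivity
      linarith
  have k8 : 0 < sin a ^ 3 + sin b ^ 3 := by positivity
  have : cos b - cos a = cos b * (1 - cos D) + sin b * sin D := by rw [e3]; ring
  linarith

lemma cot_gain (k : ℤ) (α : Ioo (0 : ℝ) π) :
    cot α + 1 / 8 < cot (outAngle (-(π / 4) + k * (2 * π)) α) := by
  rw [out_add]
  have h := out_spec (-(π / 4)) α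
  have e : 2 * -(π / 4) = -(π / 2) := by ring
  rw [e, cos_neg, sin_neg, cos_pi_div_two, sin_pi_div_two] at h
  refine cot_gain_aux α.2 (outAngle _ α).2 ?_
  unfold hgt at h
  linarith

end Pool.Agent.MP_5d0005_an
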