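import Mathlib

set_option autoImplicit false

open Complex
open scoped ContDiff ComplexConjugate Real

namespace Pool.Agent.MP_5d0005_an

/-- The phase cylinder: arc length modulo `L`, and angle in the open interval from 0 to pi. -/
abbrev Phase (L : ℝ) : Type := AddCircle L × Set.Ioo (0 : ℝ) π

/-- `γ` is a counterclockwise arc length parametrisation of a smooth strictly convex closed
curve of length `L` with positive curvature. -/
structure IsTable (γ : ℝ → ℂ) (L : ℝ) : Prop where
  length_pos : 0 < L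
  smooth : ContDiff ℝ ∞ γ
  periodic : Function.Periodic γ L
  unit_speed : ∀ s : ℝ, ‖deriv γ s‖ = 1
  curvature_pos : ∀ s : ℝ, 0 < (conj (deriv γ s) * deriv (deriv γ) s).im
  strictly_convex : ∀ s t : ℝ, (s : AddCircle L) ≠ (t : AddCircle L) →
    0 < (conj (deriv γ s) * (γ t - γ s)).im

/-- The chord leaving the point `p.1` at angle `p.2` meets the curve again at `q.1`,
at angle `q.2`. -/
def IsBounce (γ : ℝ → ℂ) (L : ℝ) (p q : Phase L) : Prop :=
  ∃ s s₁ r : ℝ, (s : AddCircle L) = p.1 ∧ (s₁ : AddCircle L) = q.1 ∧ 0 < r ∧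
    γ s₁ - γ s = r * (exp ((p.2 : ℝ) * I) * deriv γ s) ∧
    deriv γ s₁ = exp ((q.2 : ℝ) * I) * (exp ((p.2 : ℝ) * I) * deriv γ s)

/-- The shift along the cylinder of height `d`. -/
noncomputable def cylShift (L d : ℝ) (p : Phase L) : Phase L :=
  (p.1 + ((d * Real.cot p.2 : ℝ) : AddCircle L), p.2)

end Pool.Agent.MP_5d0005_an
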