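import Pool.Agent.MP_5d0005_an.Defs

set_option autoImplicit false

open Set
open scoped Real unitInterval

namespace Pool.Agent.MP_5d0005_an

/-- direction of a nonzero complex number -/
noncomputable def dir (w : {w : ℂ // w ≠ 0}) : Circle :=
  ⟨(‖w.1‖⁻¹ : ℝ) • w.1, by
    show _ ∈ Metric.sphere (0 : ℂ) 1
    rw [mem_sphere_zero_iff_norm, norm_smul, norm_inv, norm_norm]
    exact inv_mul_cancel₀ (norm_ne_zero_iff.mpr w.2)⟩

lemma continuous_dir : Continuous dir := by
  refine Continuous.subtype_mk ?_ _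
  exact Continuous.smul (Continuous.inv₀ (by fun_prop) fun w => norm_ne_zero_iff.mpr w.2)
    continuous_subtype_val

section
variable {Z : Type} [TopologicalSpace Z]

/-- parameters for which the affine modification of the loop avoids zero -/
def Good (c : C(Z, ℂ)) : Set (ℝ × ℂ) := {x | ∀ z, x.1 • c z - x.2 ≠ 0}

/-- the direction map of the modified loop -/
noncomputable def dirMap (c : C(Z, ℂ)) (x : ℝ × ℂ) (hx : x ∈ Good c) : C(Z, Circle) :=
  ⟨fun z => dir ⟨x.1 • c z - x.2, hx z⟩,
    continuous_dir.comp (Continuous.subtype_mk (by fun_prop) _)⟩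

lemma homotopic_of_joined (c : C(Z, ℂ)) {x y : ℝ × ℂ} (h : JoinedIn (Good c) x y) :
    (dirMap c x h.source_mem).Homotopic (dirMap c y h.target_mem) := by
  obtain ⟨η, hη⟩ := id h
  refine ⟨⟨⟨fun q => dir ⟨(η q.1).1 • c q.2 - (η q.1).2, hη q.1 q.2⟩,
    continuous_dir.comp (Continuous.subtype_mk (by fun_prop) _)⟩, ?_, ?_⟩⟩
  · intro z
    simp [dirMap]
  · intro z
    simp [dirMap]

end

variable {L : ℝ}

/-- the embedding of the phase cylinder in the punctured plane -/
noncomputable def emb (p : Phase L) : ℂ := (p.2 : ℝ) • ((AddCircle.toCircle p.1 : Circle) : ℂ)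

lemma continuous_emb : Continuous (emb (L := L)) := by
  unfold emb
  have := AddCircle.continuous_toCircle (T := L)
  fun_prop

lemma norm_emb (p : Phase L) : ‖emb p‖ = p.2 := by
  rw [emb, norm_smul, Circle.norm_coe, mul_one, Real.norm_of_nonneg p.2.2.1.le]

lemma emb_injective (hL : L ≠ 0) : Function.Injective (emb (L := L)) := by
  intro p q h
  have h2 : (p.2 : ℝ) = q.2 := by rw [← norm_emb p, ← norm_emb q, h]
  unfold emb at h
  rw [h2] at h
  have h3 := smul_right_injective ℂ q.2.2.1.ne' h
  exact Prod.ext (AddCircle.injective_toCircle hL (Circle.ext h3)) (Subtype.ext h2)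

theorem separation (hL : L ≠ 0) (c : C(Circle, Phase L)) {p q : Phase L}
    (hp : ∀ z, (p.2 : ℝ) < (c z).2) (hq : ∀ z, ((c z).2 : ℝ) < q.2)
    (h : JoinedIn (range c)ᶜ p q) : c.Nullhomotopic := by
  let c' : C(Circle, ℂ) := ⟨fun z => emb (c z), continuous_emb.comp c.continuous⟩
  have j1 : JoinedIn (Good c') (1, 0) (1, emb p) := by
    refine JoinedIn.of_segment_subset ?_
    rintro _ ⟨a, b, ha, hb, hab, rfl⟩ z hz
    have e : emb (c z) = b • emb p := by
      simp only [Prod.smul_mk, smul_eq_mul, mul_one, smul_zero, Prod.mk_add_mk, hab, zero_add,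
        one_smul] at hz
      exact sub_eq_zero.mp hz
    have e2 := congrArg norm e
    rw [norm_smul, norm_emb, norm_emb, Real.norm_of_nonneg hb] at e2
    have := hp z
    have := p.2.2.1
    nlinarith
  have j2 : JoinedIn (Good c') (1, emb p) (1, emb q) := by
    have := h.map (f := fun x : Phase L => ((1 : ℝ), emb x))
      (continuous_const.prodMk continuous_emb)
    refine this.mono ?_
    rintro _ ⟨x, hx, rfl⟩ z hz
    simp only [one_smul] at hz
    exact hx ⟨z, emb_injective hL (sub_eq_zero.mp hz)⟩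
  have j3 : JoinedIn (Good c') (1, emb q) (0, emb q) := by
    refine JoinedIn.of_segment_subset ?_
    rintro _ ⟨a, b, ha, hb, hab, rfl⟩ z hz
    have e : a • emb (c z) = emb q := by
      simp only [Prod.smul_mk, smul_eq_mul, mul_one, mul_zero, Prod.mk_add_mk, add_zero,
        ← add_smul, hab, one_smul] at hz
      exact sub_eq_zero.mp hz
    have e2 := congrArg norm e
    rw [norm_smul, norm_emb, norm_emb, Real.norm_of_nonneg ha] at e2
    have := hq z
    have := (c z).2.2.1
    nlinarith
  have j := (j1.trans j2).trans j3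
  have hh := homotopic_of_joined c' j
  let e : C(Circle, AddCircle L) := ⟨(AddCircle.homeomorphCircle hL).symm,
    (AddCircle.homeomorphCircle hL).symm.continuous⟩
  let c1 : C(Circle, AddCircle L) := ⟨fun z => (c z).1, by fun_prop⟩
  let c2 : C(Circle, Ioo (0 : ℝ) π) := ⟨fun z => (c z).2, by fun_prop⟩
  have e1 : e.comp (dirMap c' (1, 0) j.source_mem) = c1 := by
    ext z
    have : dirMap c' (1, 0) j.source_mem z = AddCircle.homeomorphCircle hL (c z).1 := by
      rw [AddCircle.homeomorphCircle_apply]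
      apply Circle.ext
      show (‖(1 : ℝ) • emb (c z) - 0‖⁻¹ : ℝ) • ((1 : ℝ) • emb (c z) - 0) = _
      rw [one_smul, sub_zero, norm_emb, emb, smul_smul, inv_mul_cancel₀ (c z).2.2.1.ne', one_smul]
    simp only [ContinuousMap.comp_apply, this]
    simp [e, c1]
  have n1 : c1.Nullhomotopic := by
    rw [← e1]
    refine ContinuousMap.Nullhomotopic.comp_right ?_ e
    refine ⟨dirMap c' (0, emb q) j.target_mem 1, hh.trans ?_⟩
    have : dirMap c' (0, emb q) j.target_mem
        = ContinuousMap.const _ (dirMap c' (0, emb q) j.target_mem 1) := by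
      ext z
      simp [dirMap]
    rw [← this]
  have n2 : c2.Nullhomotopic := by
    have : ContractibleSpace (Ioo (0 : ℝ) π) :=
      (convex_Ioo 0 π).contractibleSpace (nonempty_Ioo.mpr Real.pi_pos)
    exact (id_nullhomotopic _).comp_left c2
  obtain ⟨y1, h1⟩ := n1
  obtain ⟨y2, h2⟩ := n2
  exact ⟨(y1, y2), h1.prodMk h2⟩

end Pool.Agent.MP_5d0005_an
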