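import Pool.Agent.MP_5d0005_an.Table
import Pool.Agent.MP_5d0005_an.Sep

set_option autoImplicit false

open Set Real
open scoped ComplexConjugate unitInterval

namespace Pool.Agent.MP_5d0005_an

/-- the universal cover of the phase cylinder -/
abbrev Cover : Type := ℝ × Ioo (0 : ℝ) π

/-- the covering projection -/
noncomputable def proj (p : Cover) : Phase (2 * π) := ((p.1 : AddCircle (2 * π)), p.2)

/-- deck translation -/
noncomputable def tr (k : ℤ) (p : Cover) : Cover := (p.1 + k * (2 * π), p.2)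

/-- lifted billiard map -/
noncomputable def fwd (p : Cover) : Cover :=
  (arc (ang p.1 + p.2 + outAngle (ang p.1 + p.2) p.2), outAngle (ang p.1 + p.2) p.2)

/-- inverse of the lifted billiard map -/
noncomputable def bwd (p : Cover) : Cover :=
  (arc (ang p.1 - p.2 - outAngle (-(ang p.1 - p.2)) p.2), outAngle (-(ang p.1 - p.2)) p.2)

/-- lifted shift -/
noncomputable def shf (d : ℝ) (p : Cover) : Cover := (p.1 + d * cot p.2, p.2)

lemma continuous_proj : Continuous proj :=
  ((AddCircle.continuous_mk' (2 * π)).comp continuous_fst).prodMk continuous_snd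

lemma proj_surjective : Function.Surjective proj := by
  rintro ⟨x, a⟩
  obtain ⟨s, rfl⟩ := QuotientAddGroup.mk_surjective x
  exact ⟨(s, a), rfl⟩

lemma proj_eq_iff {p q : Cover} : proj p = proj q ↔ ∃ k : ℤ, q = tr k p := by
  constructor
  · intro h
    obtain ⟨k, hk⟩ := coe_eq_iff.mp (congrArg Prod.fst h)
    exact ⟨k, Prod.ext hk (congrArg Prod.snd h).symm⟩
  · rintro ⟨k, rfl⟩
    exact Prod.ext (coe_eq_iff.mpr ⟨k, rfl⟩) rfl

lemma fwd_tr (k : ℤ) (p : Cover) : fwd (tr k p) = tr k (fwd p) := by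
  have e : ang (p.1 + k * (2 * π)) + p.2 = ang p.1 + p.2 + k * (2 * π) := by
    rw [ang_add]; ring
  simp only [fwd, tr, e, out_add]
  rw [← arc_add]
  congr 2
  ring

lemma shf_tr (d : ℝ) (k : ℤ) (p : Cover) : shf d (tr k p) = tr k (shf d p) := by
  simp only [shf, tr]
  congr 1
  ring

lemma bwd_fwd (p : Cover) : bwd (fwd p) = p := by
  have e : ang p.1 + p.2 + outAngle (ang p.1 + p.2) p.2 - outAngle (ang p.1 + p.2) p.2
      = ang p.1 + p.2 := by ring
  simp only [fwd, bwd, ang_arc, e, out_out, add_sub_cancel_right, arc_ang]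

lemma fwd_bwd (p : Cover) : fwd (bwd p) = p := by
  have e : ang p.1 - p.2 - outAngle (-(ang p.1 - p.2)) p.2 + outAngle (-(ang p.1 - p.2)) p.2
      = ang p.1 - p.2 := by ring
  have e2 := out_out (-(ang p.1 - p.2)) p.2
  rw [neg_neg] at e2
  simp only [fwd, bwd, ang_arc, e, e2, sub_add_cancel, arc_ang]

lemma shf_shf (d : ℝ) (p : Cover) : shf (-d) (shf d p) = p := by
  simp only [shf]
  ext
  · simp
  · rfl

lemma continuous_cot : Continuous (fun a : Ioo (0 : ℝ) π => cot a) := by
  simp only [cot_eq_cos_div_sin]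
  exact Continuous.div (by fun_prop) (by fun_prop) fun a => (sin_pos_of_mem_Ioo a.2).ne'

lemma continuous_shf (d : ℝ) : Continuous (shf d) :=
  (continuous_fst.add (continuous_const.mul (continuous_cot.comp continuous_snd))).prodMk
    continuous_snd

lemma continuous_fwd : Continuous fwd := by
  have h1 : Continuous (fun p : Cover => ang p.1 + p.2) :=
    (continuous_ang.comp continuous_fst).add (continuous_subtype_val.comp continuous_snd)
  have h2 : Continuous (fun p : Cover => outAngle (ang p.1 + p.2) p.2) :=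
    continuous_out.comp (f := fun p : Cover => (ang p.1 + p.2, p.2)) (h1.prodMk continuous_snd)
  exact (continuous_arc.comp (h1.add (continuous_subtype_val.comp h2))).prodMk h2

lemma continuous_bwd : Continuous bwd := by
  have h1 : Continuous (fun p : Cover => ang p.1 - p.2) :=
    (continuous_ang.comp continuous_fst).sub (continuous_subtype_val.comp continuous_snd)
  have h2 : Continuous (fun p : Cover => outAngle (-(ang p.1 - p.2)) p.2) :=
    continuous_out.comp (f := fun p : Cover => (-(ang p.1 - p.2), p.2))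
      (h1.neg.prodMk continuous_snd)
  exact (continuous_arc.comp (h1.sub (continuous_subtype_val.comp h2))).prodMk h2

/-- the billiard map of the table -/
noncomputable def bill (p : Phase (2 * π)) : Phase (2 * π) :=
  proj (fwd (Function.surjInv proj_surjective p))

lemma bill_proj (p : Cover) : bill (proj p) = proj (fwd p) := by
  obtain ⟨k, hk⟩ := proj_eq_iff.mp (Function.surjInv_eq proj_surjective (proj p))
  rw [bill, proj_eq_iff]
  exact ⟨k, by rw [← fwd_tr, ← hk]⟩

lemma cylShift_proj (d : ℝ) (p : Cover) : cylShift (2 * π) d (proj p) = proj (shf d p) := rfl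

lemma bounce_fwd (p : Cover) : IsBounce table (2 * π) (proj p) (proj (fwd p)) := by
  obtain ⟨s, a⟩ := p
  set φ := ang s + a with hφ
  set b := outAngle φ a with hb
  have hu : uv φ = uv a * uv (ang s) := by rw [hφ, uv_add, mul_comm]
  have him : (conj (uv φ) * (oval (φ + b) - oval (ang s))).im = 0 := by
    have h1 := height_eq φ b
    have h2 := height_eq φ (-a)
    rw [hgt_neg, ← out_spec, ← hb, ← h1] at h2
    have e : φ + -(a : ℝ) = ang s := by rw [hφ]; ring
    rw [e] at h2
    have : conj (uv φ) * (oval (φ + b) - oval (ang s)) =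
      conj (uv φ) * (oval (φ + b) - oval φ) - conj (uv φ) * (oval (ang s) - oval φ) := by ring
    rw [this, Complex.sub_im, h2, sub_self]
  set r := (conj (uv φ) * (oval (φ + b) - oval (ang s))).re with hr
  have hw : conj (uv φ) * (oval (φ + b) - oval (ang s)) = r := by
    apply Complex.ext
    · simp [hr]
    · rw [him]; simp
  have hch : oval (φ + b) - oval (ang s) = r * uv φ := by
    rw [← hw]
    linear_combination (-(oval (φ + b) - oval (ang s))) * conj_uv_mul φ
  have hpos : 0 < r := by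
    have e : φ + b = ang s + (a + b) := by rw [hφ]; ring
    have h1 := height_eq (ang s) (a + b)
    rw [← e, hch, hu] at h1
    have h2 : conj (uv (ang s)) * (r * (uv a * uv (ang s))) = r * uv a := by
      linear_combination (r * uv a) * conj_uv_mul (ang s)
    rw [h2, uv_eq] at h1
    have h3 : cos (a + b) ≠ 1 := by
      intro hc
      have := (cos_eq_one_iff_of_lt_of_lt (by linarith [a.2.1, b.2.1, pi_pos])
        (by linarith [a.2.2, b.2.2])).mp hc
      linarith [a.2.1, b.2.1]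
    have h4 := hgt_pos (abs_cos_le_one (2 * ang s)) (abs_sin_le_one (2 * ang s)) h3
    rw [← h1] at h4
    have h5 : 0 < r * sin a := by
      simpa only [Complex.mul_im, Complex.add_re, Complex.add_im, Complex.ofReal_re,
        Complex.ofReal_im, Complex.mul_re, Complex.I_re, Complex.I_im, mul_zero, mul_one,
        zero_mul, add_zero, zero_add] using h4
    exact (mul_pos_iff_of_pos_right (sin_pos_of_mem_Ioo a.2)).mp h5
  refine ⟨s, arc (φ + b), r, rfl, rfl, hpos, ?_, ?_⟩
  · rw [deriv_table, table, table, ang_arc, hch, hu]; rfl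
  · rw [deriv_table]
    show uv (ang (arc (φ + b))) = uv b * (uv a * uv (ang s))
    rw [ang_arc, uv_add, hu, mul_comm]

lemma bounce_unique {p q : Phase (2 * π)} (h : IsBounce table (2 * π) p q) : q = bill p := by
  obtain ⟨s, s₁, r, hs, hs₁, -, h1, h2⟩ := h
  have hp : p = proj (s, p.2) := Prod.ext hs.symm rfl
  have hq : q = proj (s₁, q.2) := Prod.ext hs₁.symm rfl
  rw [deriv_table] at h1 h2
  set a := p.2
  set b := q.2
  set φ := ang s + a with hφ
  have hu : uv φ = uv a * uv (ang s) := by rw [hφ, uv_add, mul_comm]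
  have h1' : oval (ang s₁) - oval (ang s) = r * uv φ := by rw [hu]; exact h1
  have h2' : uv (ang s₁) = uv (φ + b) := by rw [uv_add, hu, mul_comm]; exact h2
  obtain ⟨k, hk⟩ := uv_eq_iff h2'
  rw [hk, oval_add] at h1'
  have hb : b = outAngle φ a := by
    apply out_unique
    rw [← height_eq, ← hgt_neg, ← height_eq]
    have e : φ + -(a : ℝ) = ang s := by rw [hφ]; ring
    have : conj (uv φ) * (oval (φ + b) - oval φ) = conj (uv φ) * (oval (ang s) - oval φ) + r := by
      linear_combination conj (uv φ) * h1' + r * conj_uv_mul φ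
    rw [e, this]
    simp
  rw [hp, hq, bill_proj, eq_comm, proj_eq_iff]
  refine ⟨k, Prod.ext ?_ hb⟩
  show s₁ = arc (φ + outAngle φ a) + k * (2 * π)
  rw [← hb, ← arc_add, ← hk, arc_ang]

theorem bounce_iff (p q : Phase (2 * π)) : IsBounce table (2 * π) p q ↔ q = bill p := by
  refine ⟨bounce_unique, ?_⟩
  rintro rfl
  obtain ⟨p, rfl⟩ := proj_surjective p
  rw [bill_proj]
  exact bounce_fwd p

lemma short_of_avoid {f : ℝ → ℝ} (hf : Continuous f) {t : ℝ} (ht : 0 ≤ t) (φ : ℝ)
    (h : ∀ u ∈ Icc 0 t, ∀ k : ℤ, f u ≠ φ + k * (2 * π)) : |f t - f 0| < 2 * π := by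
  by_contra hcon
  rw [not_lt] at hcon
  have key : ∀ x y : ℝ, x + 2 * π ≤ y → ∃ k : ℤ, φ + k * (2 * π) ∈ Icc x y := by
    intro x y hxy
    refine ⟨⌈(x - φ) / (2 * π)⌉, ?_, ?_⟩
    · have := Int.le_ceil ((x - φ) / (2 * π))
      rw [div_le_iff₀ two_pi_pos] at this
      linarith
    · have := (Int.ceil_lt_add_one ((x - φ) / (2 * π))).le
      rw [div_add' _ _ _ two_pi_pos.ne', le_div_iff₀ two_pi_pos] at this
      linarith
  rcases le_abs.mp hcon with l | l
  · obtain ⟨k, hk⟩ := key (f 0) (f t) (by linarith)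
    obtain ⟨u, hu, e⟩ := intermediate_value_Icc ht hf.continuousOn hk
    exact h u hu k e
  · obtain ⟨k, hk⟩ := key (f t) (f 0) (by linarith)
    obtain ⟨u, hu, e⟩ := intermediate_value_Icc' ht hf.continuousOn hk
    exact h u hu k e

lemma exists_high (M : ℝ) (hM : M < π) (B : ℝ) :
    ∃ a : Ioo (0 : ℝ) π, M < a ∧ cot a < B := by
  obtain ⟨ε, h0, h1, h2, h3⟩ : ∃ ε : ℝ, 0 < ε ∧ ε < π - M ∧ ε ≤ 1 ∧ ε * (|B| + 1) ≤ 1 / 2 := by
    have hB : 0 < |B| + 1 := by positivity
    refine ⟨min ((π - M) / 2) (min 1 (1 / 2 / (|B| + 1))),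
      lt_min (by linarith) (lt_min one_pos (by positivity)),
      (min_le_left _ _).trans_lt (by linarith), (min_le_right _ _).trans (min_le_left _ _), ?_⟩
    rw [← le_div_iff₀ hB]
    exact (min_le_right _ _).trans (min_le_right _ _)
  have p3 := pi_gt_three
  refine ⟨⟨π - ε, by linarith, by linarith⟩, by show M < π - ε; linarith, ?_⟩
  show cot (π - ε) < B
  have s0 : 0 < sin ε := sin_pos_of_pos_of_lt_pi h0 (by linarith)
  have s1 : sin ε ≤ ε := sin_le h0.le
  have c1 : 1 - ε ^ 2 / 2 ≤ cos ε := one_sub_sq_div_two_le_cos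
  rw [cot_eq_cos_div_sin, cos_pi_sub, sin_pi_sub, div_lt_iff₀ s0]
  have b1 := neg_abs_le B
  have b2 := abs_nonneg B
  nlinarith

lemma joined_high {G : Set Cover} {M : ℝ} (hG : ∀ p ∈ G, (p.2 : ℝ) ≤ M) {p q : Cover}
    (hp : M < p.2) (hq : M < q.2) : JoinedIn Gᶜ p q := by
  have hm : ∀ t : I, (1 - (t : ℝ)) * p.2 + t * q.2 ∈ Ioo M π := fun t =>
    (convex_Ioo M π) ⟨hp, p.2.2.2⟩ ⟨hq, q.2.2.2⟩ (by linarith [t.2.2]) t.2.1 (by ring)
  have hm' : ∀ t : I, (1 - (t : ℝ)) * p.2 + t * q.2 ∈ Ioo 0 π := fun t =>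
    (convex_Ioo 0 π) p.2.2 q.2.2 (by linarith [t.2.2]) t.2.1 (by ring)
  refine ⟨⟨⟨fun t => ((1 - (t : ℝ)) * p.1 + t * q.1, ⟨_, hm' t⟩), ?_⟩, ?_, ?_⟩, fun t ht => ?_⟩
  · exact Continuous.prodMk (by fun_prop) (Continuous.subtype_mk (by fun_prop) _)
  · simp
  · simp
  · exact absurd (hG _ ht) (not_le.mpr (hm t).1)

theorem no_barrier (d : ℝ) (hd : 400 ≤ d) (G : Set Cover) (M : ℝ) (hM : M < π)
    (hG : ∀ p ∈ G, (p.2 : ℝ) ≤ M) (hinv : ∀ p, shf d (fwd p) ∈ G ↔ p ∈ G) (B : ℝ)
    (hsep : ∀ p q : Cover, M < q.2 → JoinedIn Gᶜ p q → cot p.2 ≤ B) : False := by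
  obtain ⟨a₀, ha₀, -⟩ := exists_high M hM 0
  let u : Cover := (arc (-a₀), a₀)
  have hu : M < u.2 := ha₀
  have hTu : M < (shf d (fwd u)).2 := by
    show M < outAngle (ang (arc (-a₀)) + a₀) a₀
    rw [ang_arc, neg_add_cancel, out_zero]; exact ha₀
  let V : Set Cover := {p | JoinedIn Gᶜ p u}
  have hfwd : ∀ p ∈ V, shf d (fwd p) ∈ V := by
    intro p hp
    have h1 := JoinedIn.map hp ((continuous_shf d).comp continuous_fwd)
    refine JoinedIn.trans (h1.mono ?_) (joined_high hG hTu hu)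
    rintro _ ⟨x, hx, rfl⟩ hx'
    exact hx ((hinv x).mp hx')
  have hbwd : ∀ p ∈ V, bwd (shf (-d) p) ∈ V := by
    intro p hp
    have h0 : JoinedIn Gᶜ p (shf d (fwd u)) := JoinedIn.trans hp (joined_high hG hu hTu)
    have h1 := JoinedIn.map h0 (continuous_bwd.comp (continuous_shf (-d)))
    simp only [Function.comp_apply, shf_shf, bwd_fwd] at h1
    refine h1.mono ?_
    rintro _ ⟨x, hx, rfl⟩ hx'
    apply hx
    have h2 := (hinv (bwd (shf (-d) x))).mpr hx'
    have h3 := shf_shf (-d) x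
    rw [neg_neg] at h3
    rwa [fwd_bwd, h3] at h2
  let Y : Set ℝ := (fun p : Cover => cot p.2) '' V
  have hYb : BddAbove Y := ⟨B, by rintro _ ⟨p, hp, rfl⟩; exact hsep p u hu hp⟩
  have hYn : Y.Nonempty := ⟨_, u, joined_high hG hu hu, rfl⟩
  set X := sSup Y with hX
  have hle : ∀ p ∈ V, cot p.2 ≤ X := fun p hp => le_csSup hYb ⟨p, hp, rfl⟩
  obtain ⟨_, ⟨p, hp, rfl⟩, hpX⟩ := exists_lt_of_lt_csSup hYn (show X - 1 / 16 < X by linarith)
  obtain ⟨a₁, ha₁, hc₁⟩ := exists_high M hM (X - 1 / 8)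
  have hj : JoinedIn Gᶜ p (0, a₁) := JoinedIn.trans hp (joined_high hG hu ha₁)
  obtain ⟨η₀, hη₀⟩ := hj
  let η : ℝ → Cover := η₀.extend
  have hηc : Continuous η := η₀.continuous_extend
  have hη0 : η 0 = p := η₀.extend_zero
  have hηV : ∀ t, η t ∈ V := by
    intro t
    have h1 : JoinedIn Gᶜ p (η t) := by
      have := (isPathConnected_range hηc).joinedIn p ⟨0, hη0⟩ (η t) ⟨t, rfl⟩
      exact this.mono (by rintro _ ⟨v, rfl⟩; exact hη₀ _)
    exact h1.symm.trans hp
  have hη1 : η 1 = (0, a₁) := η₀.extend_one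
  let y : ℝ → ℝ := fun t => cot (η t).2
  have hyc : Continuous y := continuous_cot.comp (continuous_snd.comp hηc)
  have hy0 : X - 1 / 16 < y 0 := by simpa only [y, hη0] using hpX
  have hy1 : y 1 < X - 1 / 8 := by simpa only [y, hη1] using hc₁
  have hS : IsCompact (Icc (0 : ℝ) 1 ∩ y ⁻¹' {X - 1 / 8}) :=
    isCompact_Icc.inter_right (isClosed_singleton.preimage hyc)
  obtain ⟨t, ⟨ht, hyt⟩, hmin⟩ := hS.exists_isLeast (by
    obtain ⟨v, hv, e⟩ := intermediate_value_Icc' zero_le_one hyc.continuousOn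
      (show X - 1 / 8 ∈ Icc (y 1) (y 0) from ⟨hy1.le, by linarith⟩)
    exact ⟨v, hv, e⟩)
  have hyt' : y t = X - 1 / 8 := hyt
  have hlow : ∀ v ∈ Icc 0 t, X - 1 / 8 ≤ y v := by
    intro v hv
    by_contra hcon
    obtain ⟨w, hw, e⟩ := intermediate_value_Icc' hv.1 hyc.continuousOn
      (show X - 1 / 8 ∈ Icc (y v) (y 0) from ⟨(not_le.mp hcon).le, by linarith⟩)
    have h1 : t ≤ w := hmin ⟨⟨hw.1, hw.2.trans (hv.2.trans ht.2)⟩, e⟩
    have h2 : v = t := le_antisymm hv.2 (h1.trans hw.2)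
    rw [h2, hyt'] at hcon
    exact hcon le_rfl
  have hα : Continuous fun v => ((η v).2 : ℝ) :=
    continuous_subtype_val.comp (continuous_snd.comp hηc)
  have s1 := short_of_avoid (f := fun v => ang (η v).1 + (η v).2)
    ((continuous_ang.comp (continuous_fst.comp hηc)).add hα) ht.1 (-(π / 4)) (by
      intro v hv k e
      have h1 := hle _ (hfwd _ (hηV v))
      have h2 := cot_gain k (η v).2
      have h3 := hlow v hv
      rw [← e] at h2
      have h4 : cot (outAngle (ang (η v).1 + (η v).2) (η v).2) ≤ X := h1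
      have h5 : X - 1 / 8 ≤ cot (η v).2 := h3
      linarith)
  have s2 := short_of_avoid (f := fun v => -(ang ((η v).1 + -d * y v) - (η v).2))
    ((continuous_ang.comp ((continuous_fst.comp hηc).add
      (continuous_const.mul hyc))).sub hα).neg ht.1 (-(π / 4)) (by
      intro v hv k e
      have h1 := hle _ (hbwd _ (hηV v))
      have h2 := cot_gain k (η v).2
      have h3 := hlow v hv
      rw [← e] at h2
      have h4 : cot (outAngle (-(ang ((η v).1 + -d * y v) - (η v).2)) (η v).2) ≤ X := h1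
      have h5 : X - 1 / 8 ≤ cot (η v).2 := h3
      linarith)
  have b1 := abs_le.mp (abs_ang_sub (η t).1)
  have b2 := abs_le.mp (abs_ang_sub (η 0).1)
  have b3 := abs_le.mp (abs_ang_sub ((η t).1 + -d * y t))
  have b4 := abs_le.mp (abs_ang_sub ((η 0).1 + -d * y 0))
  have s1' := abs_lt.mp s1
  have s2' := abs_lt.mp s2
  have a1 := (η t).2.2
  have a2 := (η 0).2.2
  have p4 := pi_lt_d2
  have : d * (1 / 16) ≤ d * (y 0 - y t) := mul_le_mul_of_nonneg_left (by linarith) (by linarith)
  obtain ⟨a11, a12⟩ := a1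
  obtain ⟨a21, a22⟩ := a2
  obtain ⟨s11, s12⟩ := s1'
  obtain ⟨s21, s22⟩ := s2'
  nlinarith

theorem no_curve (d : ℝ) (hd : 400 ≤ d) (c : C(Circle, Phase (2 * π))) (hc : ¬ c.Nullhomotopic) :
    (cylShift (2 * π) d ∘ bill) '' range c ≠ range c := by
  intro hinv
  have hT : ∀ p, (cylShift (2 * π) d ∘ bill) (proj p) = proj (shf d (fwd p)) := fun p => by
    rw [Function.comp_apply, bill_proj, cylShift_proj]
  have hcont : Continuous fun z => ((c z).2 : ℝ) := by fun_prop
  obtain ⟨z₁, -, h₁⟩ := isCompact_univ.exists_isMaxOn univ_nonempty hcont.continuousOn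
  obtain ⟨z₀, -, h₀⟩ := isCompact_univ.exists_isMinOn univ_nonempty hcont.continuousOn
  refine no_barrier d hd (proj ⁻¹' range c) (c z₁).2 (c z₁).2.2.2 ?_ ?_
    (sin (min (c z₀).2 (π / 2)))⁻¹ ?_
  · rintro p ⟨z, hz⟩
    have : ((c z).2 : ℝ) ≤ (c z₁).2 := h₁ (mem_univ z)
    rwa [hz] at this
  · intro p
    constructor
    · intro h
      rw [mem_preimage, ← hinv] at h
      obtain ⟨q, hq, e⟩ := h
      obtain ⟨q, rfl⟩ := proj_surjective q
      rw [hT, proj_eq_iff] at e
      obtain ⟨k, hk⟩ := e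
      rw [← shf_tr, ← fwd_tr] at hk
      have h2 := congrArg (fun x => bwd (shf (-d) x)) hk
      simp only [shf_shf, bwd_fwd] at h2
      rw [mem_preimage, ← proj_eq_iff.mpr ⟨k, h2⟩]
      exact hq
    · intro h
      rw [mem_preimage, ← hT, ← hinv]
      exact mem_image_of_mem _ h
  · intro p q hq hj
    have hm0 : 0 < min ((c z₀).2 : ℝ) (π / 2) := lt_min (c z₀).2.2.1 pi_div_two_pos
    have hs0 : 0 < sin (min ((c z₀).2 : ℝ) (π / 2)) :=
      sin_pos_of_pos_of_lt_pi hm0 ((min_le_right _ _).trans_lt (by linarith [pi_pos]))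
    have hge : ((c z₀).2 : ℝ) ≤ p.2 := by
      by_contra hcon
      refine hc (separation two_pi_pos.ne' c (p := proj p) (q := proj q) (fun z => ?_)
        (fun z => ?_) ((hj.map continuous_proj).mono ?_))
      · exact (not_le.mp hcon).trans_le (h₀ (mem_univ z))
      · exact lt_of_le_of_lt (h₁ (mem_univ z)) hq
      · rintro _ ⟨x, hx, rfl⟩
        exact hx
    have hsp := sin_pos_of_mem_Ioo p.2.2
    rw [cot_eq_cos_div_sin]
    rcases le_total (p.2 : ℝ) (π / 2) with l | l
    · have := sin_le_sin_of_le_of_le_pi_div_two (by linarith [pi_pos]) l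
        ((min_le_left _ (π / 2)).trans hge)
      rw [inv_eq_one_div]
      exact div_le_div₀ zero_le_one (cos_le_one _) hs0 this
    · have : cos p.2 ≤ 0 := cos_nonpos_of_pi_div_two_le_of_le l (by linarith [p.2.2.2, pi_pos])
      exact (div_nonpos_of_nonpos_of_nonneg this hsp.le).trans (inv_pos.mpr hs0).le

end Pool.Agent.MP_5d0005_an
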