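import Pool.Agent.MP_5d0005_an.Chord

set_option autoImplicit false

open Set Real
open scoped ContDiff ComplexConjugate

namespace Pool.Agent.MP_5d0005_an

/-- arc length as a function of the tangent angle -/
noncomputable def arc (θ : ℝ) : ℝ := θ + 1 / 8 * sin (2 * θ)

/-- radius of curvature -/
noncomputable def rad (θ : ℝ) : ℝ := 1 + 1 / 4 * cos (2 * θ)

lemma rad_pos (θ : ℝ) : 0 < rad θ := by
  have := neg_one_le_cos (2 * θ)
  unfold rad; linarith

lemma hasDerivAt_arc (θ : ℝ) : HasDerivAt arc (rad θ) θ := by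
  have h := (hasDerivAt_id θ).add ((((hasDerivAt_id θ).const_mul 2).sin).const_mul (1 / 8))
  refine HasDerivAt.congr_deriv (f := arc) h ?_
  simp only [id, rad]
  ring

lemma arc_strictMono : StrictMono arc :=
  strictMono_of_deriv_pos fun θ => by rw [(hasDerivAt_arc θ).deriv]; exact rad_pos θ

lemma abs_arc_sub (θ : ℝ) : |arc θ - θ| ≤ 1 / 8 := by
  have h1 := sin_le_one (2 * θ)
  have h2 := neg_one_le_sin (2 * θ)
  unfold arc
  rw [abs_le]; constructor <;> linarith

lemma continuous_arc : Continuous arc := by unfold arc; fun_prop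

lemma arc_surjective : Function.Surjective arc := by
  intro s
  have h1 := (abs_le.mp (abs_arc_sub (s - 1))).2
  have h2 := (abs_le.mp (abs_arc_sub (s + 1))).1
  obtain ⟨θ, -, h⟩ := intermediate_value_Icc (by linarith : s - 1 ≤ s + 1)
    continuous_arc.continuousOn (show s ∈ Icc _ _ from ⟨by linarith, by linarith⟩)
  exact ⟨θ, h⟩

/-- arc length as a homeomorphism -/
noncomputable def arcHomeo : ℝ ≃ₜ ℝ :=
  (arc_strictMono.orderIsoOfSurjective arc arc_surjective).toHomeomorph

/-- tangent angle as a function of arc length -/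
noncomputable def ang : ℝ → ℝ := arcHomeo.symm

lemma arc_ang (s : ℝ) : arc (ang s) = s := arcHomeo.apply_symm_apply s

lemma ang_arc (θ : ℝ) : ang (arc θ) = θ := arcHomeo.symm_apply_apply θ

lemma contDiff_ang : ContDiff ℝ ∞ ang :=
  arcHomeo.contDiff_symm_deriv (f' := rad) (fun θ => (rad_pos θ).ne') hasDerivAt_arc
    (show ContDiff ℝ ∞ arc by unfold arc; fun_prop)

lemma continuous_ang : Continuous ang := contDiff_ang.continuous

lemma hasDerivAt_ang (s : ℝ) : HasDerivAt ang (rad (ang s))⁻¹ s :=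
  HasDerivAt.of_local_left_inverse continuous_ang.continuousAt (hasDerivAt_arc _)
    (rad_pos _).ne' (Filter.Eventually.of_forall arc_ang)

lemma arc_add (θ : ℝ) (k : ℤ) : arc (θ + k * (2 * π)) = arc θ + k * (2 * π) := by
  have e : 2 * (θ + k * (2 * π)) = 2 * θ + ((2 * k : ℤ) : ℝ) * (2 * π) := by push_cast; ring
  unfold arc
  rw [e, sin_add_int_mul_two_pi]; ring

lemma ang_add (s : ℝ) (k : ℤ) : ang (s + k * (2 * π)) = ang s + k * (2 * π) := by
  apply arc_strictMono.injective
  rw [arc_add, arc_ang, arc_ang]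

lemma abs_ang_sub (s : ℝ) : |ang s - s| ≤ 1 / 8 := by
  have := abs_arc_sub (ang s)
  rwa [arc_ang, abs_sub_comm] at this

/-- the table in the tangent angle parameter -/
noncomputable def oval (θ : ℝ) : ℂ :=
  ((5 / 4 * sin θ - 1 / 6 * sin θ ^ 3 : ℝ) : ℂ)
    + ((-(3 / 4) * cos θ - 1 / 6 * cos θ ^ 3 : ℝ) : ℂ) * Complex.I

/-- unit vector -/
noncomputable def uv (θ : ℝ) : ℂ := Complex.exp (θ * Complex.I)

lemma uv_eq (θ : ℝ) : uv θ = (cos θ : ℝ) + (sin θ : ℝ) * Complex.I := by
  rw [uv, Complex.exp_mul_I]; simp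

lemma uv_add (a b : ℝ) : uv (a + b) = uv a * uv b := by
  rw [uv, uv, uv, ← Complex.exp_add]; congr 1; push_cast; ring

lemma norm_uv (a : ℝ) : ‖uv a‖ = 1 := Complex.norm_exp_ofReal_mul_I a

lemma conj_uv_mul (a : ℝ) : conj (uv a) * uv a = 1 := by
  rw [Complex.conj_mul', norm_uv]; simp

lemma uv_eq_iff {a b : ℝ} (h : uv a = uv b) : ∃ k : ℤ, a = b + k * (2 * π) := by
  obtain ⟨k, hk⟩ := Complex.exp_eq_exp_iff_exists_int.mp h
  refine ⟨k, ?_⟩
  have := congrArg Complex.im hk
  simpa using this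

lemma hasDerivAt_oval (θ : ℝ) : HasDerivAt oval ((rad θ : ℂ) * uv θ) θ := by
  have h1 := hasDerivAt_cos θ
  have h2 := hasDerivAt_sin θ
  have hx := ((h2.const_mul (5 / 4)).sub ((h2.pow 3).const_mul (1 / 6))).ofReal_comp
  have hy := (((h1.const_mul (-(3 / 4))).sub
    ((h1.pow 3).const_mul (1 / 6))).ofReal_comp).mul_const Complex.I
  refine HasDerivAt.congr_deriv (f := oval) (hx.add hy) ?_
  have e := sin_sq_add_cos_sq θ
  have e1 : 5 / 4 * cos θ - 1 / 6 * (((3 : ℕ) : ℝ) * sin θ ^ (3 - 1) * cos θ) = rad θ * cos θ := by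
    rw [rad, cos_two_mul]
    simp only [Nat.add_one_sub_one, Nat.cast_ofNat]
    linear_combination (-1 / 2 * cos θ) * e
  have e2 : -(3 / 4) * -sin θ - 1 / 6 * (((3 : ℕ) : ℝ) * cos θ ^ (3 - 1) * -sin θ)
      = rad θ * sin θ := by
    rw [rad, cos_two_mul]
    simp only [Nat.add_one_sub_one, Nat.cast_ofNat]
    ring
  rw [e1, e2, uv_eq]
  push_cast
  ring

lemma oval_add (θ : ℝ) (k : ℤ) : oval (θ + k * (2 * π)) = oval θ := by
  rw [oval, oval, sin_add_int_mul_two_pi, cos_add_int_mul_two_pi]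

lemma height_eq (φ a : ℝ) :
    (conj (uv φ) * (oval (φ + a) - oval φ)).im = hgt (cos (2 * φ)) (sin (2 * φ)) a := by
  have e1 := sin_sq_add_cos_sq φ
  have e2 := sin_sq_add_cos_sq a
  have r1 : (conj (uv φ) * (oval (φ + a) - oval φ)).im =
      cos φ * ((-(3 / 4) * cos (φ + a) - 1 / 6 * cos (φ + a) ^ 3)
        - (-(3 / 4) * cos φ - 1 / 6 * cos φ ^ 3))
      - sin φ * ((5 / 4 * sin (φ + a) - 1 / 6 * sin (φ + a) ^ 3)
        - (5 / 4 * sin φ - 1 / 6 * sin φ ^ 3)) := by
    rw [uv_eq, oval, oval]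
    simp only [Complex.mul_im, Complex.conj_re, Complex.conj_im, Complex.add_re, Complex.add_im,
      Complex.sub_re, Complex.sub_im, Complex.ofReal_re, Complex.ofReal_im, Complex.mul_re,
      Complex.I_re, Complex.I_im]
    ring
  rw [r1, hgt, cos_add, sin_add, cos_two_mul, sin_two_mul]
  generalize cos φ = C at *
  generalize sin φ = S at *
  generalize cos a = c at *
  generalize sin a = s at *
  grind

/-- the table in the arc length parameter -/
noncomputable def table (s : ℝ) : ℂ := oval (ang s)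

lemma hasDerivAt_table (s : ℝ) : HasDerivAt table (uv (ang s)) s := by
  have h := (hasDerivAt_oval (ang s)).scomp s (hasDerivAt_ang s)
  refine HasDerivAt.congr_deriv (f := table) h ?_
  have : (rad (ang s) : ℂ) ≠ 0 := by exact_mod_cast (rad_pos _).ne'
  rw [Complex.real_smul]
  push_cast
  field_simp

lemma deriv_table : deriv table = fun s => uv (ang s) :=
  funext fun s => (hasDerivAt_table s).deriv

lemma coe_eq_iff {s t : ℝ} :
    (s : AddCircle (2 * π)) = (t : AddCircle (2 * π)) ↔ ∃ k : ℤ, t = s + k * (2 * π) := by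
  rw [QuotientAddGroup.eq]
  constructor
  · rintro ⟨k, hk⟩
    refine ⟨k, ?_⟩
    simp only [zsmul_eq_mul] at hk
    linarith
  · rintro ⟨k, hk⟩
    refine ⟨k, ?_⟩
    simp only [zsmul_eq_mul]
    linarith

lemma table_convex (s t : ℝ) (h : (s : AddCircle (2 * π)) ≠ (t : AddCircle (2 * π))) :
    0 < (conj (uv (ang s)) * (table t - table s)).im := by
  have e : ang t = ang s + (ang t - ang s) := by ring
  rw [table, table, e, height_eq]
  refine hgt_pos (abs_cos_le_one _) (abs_sin_le_one _) fun hc => h ?_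
  obtain ⟨k, hk⟩ := (cos_eq_one_iff _).mp hc
  refine coe_eq_iff.mpr ⟨k, ?_⟩
  rw [← arc_ang t, e, ← hk, arc_add, arc_ang]

theorem isTable : IsTable table (2 * π) where
  length_pos := two_pi_pos
  smooth := by
    have h1 : ContDiff ℝ ∞ oval := by
      have a1 : ContDiff ℝ ∞ (fun θ : ℝ => 5 / 4 * sin θ - 1 / 6 * sin θ ^ 3) := by fun_prop
      have a2 : ContDiff ℝ ∞ (fun θ : ℝ => -(3 / 4) * cos θ - 1 / 6 * cos θ ^ 3) := by fun_prop
      exact ContDiff.add (Complex.ofRealCLM.contDiff.comp a1)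
        (ContDiff.mul (Complex.ofRealCLM.contDiff.comp a2) contDiff_const)
    exact h1.comp contDiff_ang
  periodic := fun s => by
    have := ang_add s 1
    simp only [Int.cast_one, one_mul] at this
    have h2 := oval_add (ang s) 1
    simp only [Int.cast_one, one_mul] at h2
    rw [table, table, this, h2]
  unit_speed := fun s => by rw [deriv_table]; exact norm_uv _
  curvature_pos := fun s => by
    rw [deriv_table]
    have h : HasDerivAt (fun s => uv (ang s))
        (uv (ang s) * ((((rad (ang s))⁻¹ : ℝ) : ℂ) * Complex.I)) s :=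
      (((hasDerivAt_ang s).ofReal_comp).mul_const Complex.I).cexp
    rw [h.deriv, ← mul_assoc, conj_uv_mul, one_mul]
    simpa using rad_pos _
  strictly_convex := fun s t h => by rw [deriv_table]; exact table_convex s t h

end Pool.Agent.MP_5d0005_an
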